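import Mathlib

set_option autoImplicit false

namespace Pool.Agent.Results.MP_769d7c_al.Counter

open Filter Topology

/-- The ball of the entourage E_F at x. -/
def EF {G : Type} [Group G] (F : Finset G) (x : G) : Set G := {x} ∪ (fun g => g * x) '' F

def BO {G : Type} [Group G] (f : G → ℝ) : Prop :=
  ∃ C > 0, ∀ F : Finset G, ∃ B : Finset G, ∀ x ∉ B, Metric.diam (f '' EF F x) < C

def SO {G : Type} [Group G] (f : G → ℝ) : Prop :=
  ∀ F : Finset G, ∀ ε > 0, ∃ B : Finset G, ∀ x ∉ B, Metric.diam (f '' EF F x) < ε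

def BddOff {G : Type} (f : G → ℝ) : Prop := ∃ B : Finset G, ∃ M : ℝ, ∀ x ∉ B, |f x| ≤ M

def BoBounded (G : Type) [Group G] : Prop := ∀ f : G → ℝ, BO f → BddOff f

def SoBounded (G : Type) [Group G] : Prop := ∀ f : G → ℝ, SO f → BddOff f

abbrev I : Type := ℝ ⊕ ℝ
abbrev Q : Type := Multiplicative (ℝ × ℝ)

def sh (q : Q) : I → I
  | Sum.inl c => Sum.inl (q.toAdd.2 + c)
  | Sum.inr c => Sum.inr (q.toAdd.1 + c)

theorem sh_one (i : I) : sh 1 i = i := by cases i <;> simp [sh]
theorem sh_mul (p q : Q) (i : I) : sh (p * q) i = sh p (sh q i) := by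
  cases i <;> simp [sh, add_assoc]

def shE (q : Q) : I ≃ I where
  toFun := sh q
  invFun := sh q⁻¹
  left_inv i := by rw [← sh_mul]; simp [sh_one]
  right_inv i := by rw [← sh_mul]; simp [sh_one]

def phi : Q →* MulAut (FreeGroup I) where
  toFun q := FreeGroup.freeGroupCongr (shE q)
  map_one' := by
    apply MulEquiv.toMonoidHom_injective
    ext i
    simp [shE, sh_one]
  map_mul' p q := by
    apply MulEquiv.toMonoidHom_injective
    ext i
    simp [shE, sh_mul]

abbrev G : Type := SemidirectProduct (FreeGroup I) Q phi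

theorem phi_of (q : Q) (i : I) : phi q (FreeGroup.of i) = FreeGroup.of (sh q i) := by
  simp [phi, shE]

theorem phi_mk (q : Q) (L : List (I × Bool)) :
    phi q (FreeGroup.mk L) = FreeGroup.mk (L.map fun l => (sh q l.1, l.2)) := by
  simp [phi, shE]

theorem so_fin {H : Type} [Group H] {f : H → ℝ} (hf : SO f) (g : H) {ε : ℝ} (hε : 0 < ε) :
    {x | ε ≤ |f (g * x) - f x|}.Finite := by
  obtain ⟨B, hB⟩ := hf {g} ε hε
  refine B.finite_toSet.subset fun x hx => ?_
  by_contra hxB
  have h1 := hB x hxB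
  have hfin : (f '' EF {g} x).Finite := by
    refine Set.Finite.image _ ?_
    exact (Set.finite_singleton _).union ((Finset.finite_toSet _).image _)
  have h2 : dist (f (g * x)) (f x) ≤ Metric.diam (f '' EF {g} x) :=
    Metric.dist_le_diam_of_mem hfin.isBounded ⟨g * x, Or.inr ⟨g, by simp, rfl⟩, rfl⟩
      ⟨x, Or.inl rfl, rfl⟩
  rw [Real.dist_eq] at h2
  simp only [Set.mem_setOf_eq] at hx
  linarith

instance : Uncountable Q := inferInstanceAs (Uncountable (ℝ × ℝ))

open SemidirectProduct in
theorem coset_lim {f : G → ℝ} (hf : SO f) (x : G) :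
    ∃ c, Tendsto (fun a : Q => f (inr a * x)) cofinite (𝓝 c) := by
  set h : Q → ℝ := fun a => f (inr a * x) with hh
  have hfin : ∀ (g : Q) {ε : ℝ}, 0 < ε → {a | ε ≤ |h (g * a) - h a|}.Finite := by
    intro g ε hε
    have := so_fin hf (inr g) hε
    refine (this.preimage (f := fun a : Q => (inr a * x : G)) ?_).subset ?_
    · intro a _ b _ hab
      exact inr_injective (mul_right_cancel hab)
    · intro a ha
      simpa [hh, mul_assoc] using ha
  rw [← cauchy_map_iff_exists_tendsto, Metric.cauchy_iff]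
  refine ⟨inferInstance, fun ε hε => ?_⟩
  by_contra hcon
  push Not at hcon
  have step : ∀ S : Finset Q, ∃ ab : Q × Q, ab.1 ∉ S ∧ ab.2 ∉ S ∧ ε ≤ |h ab.1 - h ab.2| := by
    intro S
    obtain ⟨_, ⟨a, ha, rfl⟩, _, ⟨b, hb, rfl⟩, hab⟩ := hcon (h '' (↑S)ᶜ)
      (image_mem_map S.finite_toSet.compl_mem_cofinite)
    exact ⟨(a, b), ha, hb, by rwa [Real.dist_eq] at hab⟩
  classical
  choose st hst using step
  let Sq : ℕ → Finset Q := fun n => Nat.rec ∅ (fun _ S => insert (st S).1 (insert (st S).2 S)) n
  have hmono : Monotone Sq := monotone_nat_of_le_succ fun n =>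
    (Finset.subset_insert _ _).trans (Finset.subset_insert _ _)
  have hev : ∀ (T : Set Q), T.Finite → ∀ᶠ n in atTop, (st (Sq n)).1 ∉ T ∧ (st (Sq n)).2 ∉ T := by
    intro T hT
    have key : ∀ t : Q, ∀ᶠ n in atTop, (st (Sq n)).1 ≠ t ∧ (st (Sq n)).2 ≠ t := by
      intro t
      rcases em (∃ n, t ∈ Sq n) with ⟨n, hn⟩ | ht
      · filter_upwards [eventually_ge_atTop n] with m hm
        exact ⟨fun e => (hst _).1 (e ▸ hmono hm hn), fun e => (hst _).2.1 (e ▸ hmono hm hn)⟩
      · push Not at ht
        refine Eventually.of_forall fun m => ⟨fun e => ht (m + 1) ?_, fun e => ht (m + 1) ?_⟩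
        · exact e ▸ Finset.mem_insert_self _ _
        · exact e ▸ Finset.mem_insert_of_mem (Finset.mem_insert_self _ _)
    have := (eventually_all_finite hT).2 fun t _ => key t
    filter_upwards [this] with n hn
    exact ⟨fun h1 => (hn _ h1).1 rfl, fun h2 => (hn _ h2).2 rfl⟩
  have hε3 : 0 < ε / 3 := by positivity
  have hex : ∀ g : Q, ∃ n, |h (g * (st (Sq n)).1) - h (st (Sq n)).1| < ε / 3 ∧
      |h (g * (st (Sq n)).2) - h (st (Sq n)).2| < ε / 3 := by
    intro g
    obtain ⟨n, hn⟩ := (hev _ (hfin g hε3)).exists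
    exact ⟨n, not_le.1 hn.1, not_le.1 hn.2⟩
  choose N hN using hex
  have : ∃ n, (N ⁻¹' {n}).Infinite := by
    by_contra hc
    push Not at hc
    have : (Set.univ : Set Q).Countable := by
      refine (Set.countable_iUnion fun n => (hc n).countable).mono fun g _ => ?_
      exact Set.mem_iUnion.2 ⟨N g, rfl⟩
    exact Set.not_countable_univ this
  obtain ⟨n, hn⟩ := this
  set a := (st (Sq n)).1
  set b := (st (Sq n)).2
  apply hn
  refine ((hfin (a * b⁻¹) hε3).preimage (f := fun g => g * b) ?_).subset ?_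
  · intro u _ v _ huv
    exact mul_right_cancel huv
  · intro g hg
    have h1 := hN g
    rw [show N g = n from hg] at h1
    have h2 : ε ≤ |h a - h b| := (hst (Sq n)).2.2
    have h3 : a * b⁻¹ * (g * b) = g * a := by
      rw [mul_comm g b, mul_comm g a]; group
    simp only [Set.mem_preimage, Set.mem_setOf_eq, h3]
    obtain ⟨h4, h5⟩ := h1
    change |h (g * a) - h a| < ε / 3 at h4
    change |h (g * b) - h b| < ε / 3 at h5
    rw [abs_lt] at h4 h5
    rcases le_abs.1 h2 with h6 | h6
    · exact le_abs.2 (Or.inl (by linarith))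
    · exact le_abs.2 (Or.inr (by linarith))

open SemidirectProduct in
theorem soBounded : SoBounded G := by
  intro f hf
  choose c hc using coset_lim hf
  have c1 : ∀ (a : Q) (x : G), c (inr a * x) = c x := by
    intro a x
    have h1 := (hc x).comp (mul_left_injective a).tendsto_cofinite
    refine tendsto_nhds_unique (hc _) ?_
    simpa [Function.comp_def, mul_assoc] using h1
  have c2 : ∀ (i : I) (x : G), c (inl (FreeGroup.of i) * x) = c x := by
    intro i x
    obtain ⟨j, hj, hji⟩ : ∃ j : ℝ → Q, Function.Injective j ∧ ∀ t, sh (j t) i = i := by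
      cases i with
      | inl c0 =>
        refine ⟨fun t => Multiplicative.ofAdd (t, 0), fun s t hst => ?_, fun t => by simp [sh]⟩
        simpa using hst
      | inr c0 =>
        refine ⟨fun t => Multiplicative.ofAdd (0, t), fun s t hst => ?_, fun t => by simp [sh]⟩
        simpa using hst
    have h1 := (hc (inl (FreeGroup.of i) * x)).comp hj.tendsto_cofinite
    have h2 := (hc x).comp hj.tendsto_cofinite
    have hcomm : ∀ t, (inr (j t) * inl (FreeGroup.of i) : G) = inl (FreeGroup.of i) * inr (j t) := by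
      intro t
      ext <;> simp [phi_of, hji]
    have h3 : Tendsto (fun t => f (inl (FreeGroup.of i) * (inr (j t) * x)) - f (inr (j t) * x))
        cofinite (𝓝 0) := by
      rw [Metric.tendsto_nhds]
      intro ε hε
      have := (so_fin hf (inl (FreeGroup.of i)) hε).preimage
        (f := fun t => (inr (j t) * x : G)) (fun s _ t _ hst =>
          hj (inr_injective (mul_right_cancel hst)))
      refine (eventually_cofinite.2 (this.subset fun t ht => ?_))
      simpa [Real.dist_eq] using ht
    have h4 := h1.sub h2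
    have h5 : c (inl (FreeGroup.of i) * x) - c x = 0 := by
      refine tendsto_nhds_unique h4 (h3.congr fun t => ?_)
      simp only [Function.comp_def, ← mul_assoc, hcomm]
    linarith
  have c3 : ∀ (n : FreeGroup I) (x : G), c (inl n * x) = c x := by
    intro n
    induction n using FreeGroup.induction_on with
    | C1 => simp
    | of i => exact c2 i
    | inv_of i hi =>
      intro x
      have := hi (inl (FreeGroup.of i)⁻¹ * x)
      rw [← mul_assoc, ← map_mul] at this
      simpa using this.symm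
    | mul a b ha hb => intro x; rw [map_mul, mul_assoc, ha, hb]
  have c4 : ∀ x : G, c x = c 1 := by
    intro x
    conv_lhs => rw [← inl_left_mul_inr_right x, c3, ← mul_one (inr x.right), c1]
  have hfin : {x | 2 ≤ |f x - c 1|}.Finite := by
    by_contra hinf
    obtain ⟨T, hT, hTc, hTi⟩ := Set.Infinite.exists_subset_countable_infinite hinf
    have hb : ∀ x : G, {a : Q | 1 ≤ |f (inr a * x) - c 1|}.Finite := by
      intro x
      have := Metric.tendsto_nhds.1 (hc x) 1 one_pos
      refine (eventually_cofinite.1 this).subset fun a ha => ?_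
      simpa [Real.dist_eq, c4 x] using ha
    have hcount : (⋃ x ∈ T, {a : Q | 1 ≤ |f (inr a * x) - c 1|}).Countable :=
      hTc.biUnion fun x _ => (hb x).countable
    obtain ⟨a, ha⟩ : ∃ a : Q, a ∉ ⋃ x ∈ T, {a : Q | 1 ≤ |f (inr a * x) - c 1|} := by
      by_contra hc'
      push Not at hc'
      exact Set.not_countable_univ (hcount.mono fun a _ => hc' a)
    refine hTi ((so_fin hf (inr a) one_pos).subset fun x hx => ?_)
    have h1 : 2 ≤ |f x - c 1| := hT hx
    have h2 : |f (inr a * x) - c 1| < 1 := by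
      by_contra h
      exact ha (Set.mem_biUnion hx (not_lt.1 h))
    simp only [Set.mem_setOf_eq]
    rw [abs_lt] at h2
    rcases le_abs.1 h1 with h6 | h6
    · exact le_abs.2 (Or.inr (by linarith))
    · exact le_abs.2 (Or.inl (by linarith))
  refine ⟨hfin.toFinset, |c 1| + 2, fun x hx => ?_⟩
  have h1 : |f x - c 1| < 2 := by simpa using hx
  have := abs_add_le (f x - c 1) (c 1)
  simp only [sub_add_cancel] at this
  linarith

open scoped Classical in
theorem decomp (W : List (I × Bool)) (hW : FreeGroup.IsReduced W) (V : List (I × Bool)) :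
    ∃ V1 S W1 : List (I × Bool), W = S ++ W1 ∧
      FreeGroup.reduce (V ++ W) = V1 ++ W1 ∧ V1.length ≤ V.length ∧
      S.length ≤ V.length ∧ (∀ l ∈ V1, l.1 ∈ V.map Prod.fst) ∧ ∀ l ∈ S, l.1 ∈ V.map Prod.fst := by
  induction V with
  | nil => exact ⟨[], [], W, rfl, hW.reduce_eq, le_rfl, le_rfl, by simp, by simp⟩
  | cons l V ih =>
    obtain ⟨V1, S, W1, h1, h2, h3, h4, h5, h6⟩ := ih
    have h5' : ∀ l' ∈ V1, l'.1 ∈ (l :: V).map Prod.fst := fun l' hl =>
      List.mem_cons_of_mem _ (h5 l' hl)
    have h6' : ∀ l' ∈ S, l'.1 ∈ (l :: V).map Prod.fst := fun l' hl =>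
      List.mem_cons_of_mem _ (h6 l' hl)
    have key : FreeGroup.reduce (l :: V ++ W) = l :: (V1 ++ W1) ∨
        ∃ hd, V1 ++ W1 = hd :: FreeGroup.reduce (l :: V ++ W) ∧ l.1 = hd.1 := by
      rw [List.cons_append, FreeGroup.reduce.cons, h2]
      cases V1 ++ W1 with
      | nil => exact Or.inl rfl
      | cons hd tl =>
        dsimp only
        split_ifs with hc
        · exact Or.inr ⟨hd, rfl, hc.1⟩
        · exact Or.inl rfl
    rcases key with key | ⟨hd, key, hhd⟩
    · refine ⟨l :: V1, S, W1, h1, key, by simpa using h3, by simp; omega, ?_, h6'⟩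
      intro l' hl'
      rcases List.mem_cons.1 hl' with rfl | hl'
      · simp
      · exact h5' _ hl'
    · cases V1 with
      | nil =>
        refine ⟨[], S ++ [hd], FreeGroup.reduce (l :: V ++ W), ?_, rfl, by simp, by simpa using h4,
          by simp, ?_⟩
        · rw [List.append_assoc, List.singleton_append, ← key]; exact h1
        · intro l' hl'
          rcases List.mem_append.1 hl' with hl' | hl'
          · exact h6' _ hl'
          · rw [List.mem_singleton.1 hl', ← hhd]; simp
      | cons v V2 =>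
        rw [List.cons_append, List.cons.injEq] at key
        refine ⟨V2, S, W1, h1, key.2.symm, by simp at h3 ⊢; omega, by simp; omega, ?_, h6'⟩
        exact fun l' hl' => h5' _ (List.mem_cons_of_mem _ hl')

def om (i : ℕ) : I × Bool := (if i % 2 = 0 then Sum.inl 0 else Sum.inr 0, true)

theorem T_ex (W : List (I × Bool)) : ∃ i, W.reverse[i]? ≠ some (om i) :=
  ⟨W.length, by simp⟩

open scoped Classical in
noncomputable def T (W : List (I × Bool)) : ℕ := Nat.find (T_ex W)

theorem T_le (W : List (I × Bool)) : T W ≤ W.length := Nat.find_min' _ (by simp)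

theorem T_lt {W : List (I × Bool)} {i : ℕ} (h : i < T W) : W.reverse[i]? = some (om i) := by
  classical
  simpa using Nat.find_min (T_ex W) h

theorem le_T {W : List (I × Bool)} {k : ℕ} (h : ∀ i < k, W.reverse[i]? = some (om i)) :
    k ≤ T W := by
  classical
  by_contra hc
  exact Nat.find_spec (T_ex W) (h _ (not_le.1 hc))

theorem rev_app (X W : List (I × Bool)) {i : ℕ} (h : i < W.length) :
    (X ++ W).reverse[i]? = W.reverse[i]? := by
  rw [List.reverse_append, List.getElem?_append_left (by simpa using h)]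

theorem T_app_ge (X W : List (I × Bool)) : T W ≤ T (X ++ W) :=
  le_T fun i hi => by rw [rev_app X W (hi.trans_le (T_le W)), T_lt hi]

theorem T_app_eq (X W : List (I × Bool)) (h : T W < W.length) : T (X ++ W) = T W := by
  refine le_antisymm ?_ (T_app_ge X W)
  by_contra hc
  have h1 := T_lt (not_le.1 hc)
  rw [rev_app X W h] at h1
  have : T W + 1 ≤ T W := le_T fun i hi => by
    rcases (Nat.lt_succ_iff.1 hi).eq_or_lt with rfl | hi
    · exact h1
    · exact T_lt hi
  omega

theorem T_two (X W : List (I × Bool)) (h : W.length + 2 ≤ T (X ++ W)) :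
    (∃ l ∈ X, l.1 = Sum.inl 0) ∧ ∃ l ∈ X, l.1 = Sum.inr 0 := by
  have key : ∀ i, W.length ≤ i → i < W.length + 2 → om i ∈ X := by
    intro i h1 h2
    have := T_lt (h2.trans_le h)
    rw [List.reverse_append, List.getElem?_append_right (by simpa using h1)] at this
    exact List.mem_reverse.1 (List.mem_of_getElem? this)
  have k1 := key W.length le_rfl (by omega)
  have k2 := key (W.length + 1) (by omega) (by omega)
  rcases Nat.mod_two_eq_zero_or_one W.length with h0 | h0
  · exact ⟨⟨_, k1, by simp [om, h0]⟩, ⟨_, k2, by simp [om]; omega⟩⟩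
  · exact ⟨⟨_, k2, by simp [om]; omega⟩, ⟨_, k1, by simp [om, h0]⟩⟩

theorem lists_fin {α : Type} {s : Set α} (hs : s.Finite) (n : ℕ) :
    {L : List α | L.length ≤ n ∧ ∀ l ∈ L, l ∈ s}.Finite := by
  induction n with
  | zero => exact (Set.finite_singleton []).subset fun L hL => by simpa using hL.1
  | succ n ih =>
    refine ((Set.finite_singleton []).union (hs.image2 List.cons ih)).subset ?_
    rintro (_ | ⟨a, L⟩) hL
    · simp
    · exact Or.inr ⟨a, hL.2 a (by simp), L, ⟨by simpa using hL.1,
        fun l hl => hL.2 l (by simp [hl])⟩, rfl⟩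

def rho (x : G) : FreeGroup I := phi x.right⁻¹ x.left

theorem rho_mul (g x : G) : rho (g * x) = phi (g * x).right⁻¹ g.left * rho x := by
  simp only [rho, SemidirectProduct.mul_left, SemidirectProduct.mul_right, map_mul, mul_inv_rev]
  congr 1
  rw [← MulAut.mul_apply, mul_assoc, ← map_mul phi g.right⁻¹]
  simp

open scoped Classical in
noncomputable def ff (x : G) : ℝ := Real.log (T (rho x).toWord + 1)

theorem log_close {a b k : ℕ} (h1 : k ≤ a) (h2 : k ≤ b) (h3 : a ≤ 2 * k + 1) (h4 : b ≤ 2 * k + 1) :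
    |Real.log (a + 1) - Real.log (b + 1)| ≤ 1 := by
  have aux : ∀ a b : ℕ, k ≤ b → a ≤ 2 * k + 1 → Real.log (a + 1) - Real.log (b + 1) ≤ 1 := by
    intro a b h2 h3
    have : Real.log (a + 1) ≤ Real.log (2 * (b + 1)) := by
      refine Real.log_le_log (by positivity) ?_
      have : a + 1 ≤ 2 * (b + 1) := by omega
      exact_mod_cast this
    rw [Real.log_mul (by norm_num) (by positivity)] at this
    have := Real.log_two_lt_d9
    linarith
  exact abs_le.2 ⟨by linarith [aux b a h1 h4], aux a b h2 h3⟩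

open scoped Classical in
theorem ff_fin (g : G) : {x | 1 < |ff (g * x) - ff x|}.Finite := by
  set M := g.left.toWord with hM
  have hq : {r : Q | (∃ l ∈ M, sh r l.1 = Sum.inl 0) ∧ ∃ l ∈ M, sh r l.1 = Sum.inr 0}.Finite := by
    have h1 : (⋃ l ∈ {l | l ∈ M}, ⋃ l' ∈ {l | l ∈ M},
        {r : Q | sh r l.1 = Sum.inl 0 ∧ sh r l'.1 = Sum.inr 0}).Finite := by
      refine M.finite_toSet.biUnion fun l _ => M.finite_toSet.biUnion fun l' _ => ?_
      refine Set.Subsingleton.finite ?_
      rintro r ⟨h1, h2⟩ r' ⟨h3, h4⟩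
      rcases l with ⟨a | a, _⟩ <;> rcases l' with ⟨b | b, _⟩ <;> simp [sh] at h1 h2 h3 h4
      apply Multiplicative.toAdd.injective
      ext <;> linarith
    refine h1.subset ?_
    rintro r ⟨⟨l, hl, h2⟩, l', hl', h3⟩
    simp only [Set.mem_iUnion]
    exact ⟨l, hl, l', hl', h2, h3⟩
  have hW : ∀ r : Q, {L : List (I × Bool) | L.length ≤ 2 * M.length ∧ ∀ l ∈ L,
      l ∈ ({Sum.inl 0, Sum.inr 0} ∪ sh r '' {i | i ∈ M.map Prod.fst}) ×ˢ
        (Set.univ : Set Bool)}.Finite := fun r =>
    lists_fin ((((Set.finite_singleton _).insert _).union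
      ((List.finite_toSet _).image _)).prod Set.finite_univ) _
  refine Set.Finite.of_finite_image
    (f := fun x : G => ((g * x).right⁻¹, (rho x).toWord)) ?_ ?_
  · refine (hq.biUnion fun r _ => (hW r).image (Prod.mk r)).subset ?_
    rintro _ ⟨x, hx, rfl⟩
    set r := (g * x).right⁻¹ with hr
    set V := M.map fun l => (sh r l.1, l.2) with hV
    obtain ⟨V1, S, W1, h1, h2, h3, h4, h5, h6⟩ :=
      decomp (rho x).toWord FreeGroup.isReduced_toWord V
    have h7 : (rho (g * x)).toWord = V1 ++ W1 := by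
      rw [rho_mul, ← h2, ← hr, ← FreeGroup.mk_toWord (x := g.left), phi_mk,
        ← FreeGroup.mk_toWord (x := rho x), FreeGroup.mul_mk, FreeGroup.toWord_mk]
      simp only [FreeGroup.toWord_mk, FreeGroup.reduce_toWord]
      rfl
    have hVl : V.length = M.length := by simp [hV]
    simp only [Set.mem_setOf_eq, ff, h7] at hx
    rw [h1] at hx
    have hT : T W1 = W1.length := by
      by_contra hc
      have := lt_of_le_of_ne (T_le W1) hc
      rw [T_app_eq _ _ this, T_app_eq _ _ this] at hx
      norm_num at hx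
    have g1 := T_app_ge V1 W1
    have g2 := T_app_ge S W1
    have g3 := T_le (V1 ++ W1)
    have g4 := T_le (S ++ W1)
    rw [List.length_append] at g3 g4
    have hk : W1.length ≤ M.length := by
      by_contra hc
      exact not_le.2 hx (log_close (k := W1.length) (by omega) (by omega) (by omega) (by omega))
    have hmem : ∀ i : I, i ∈ V.map Prod.fst → ∃ l ∈ M, sh r l.1 = i := by
      intro i hi
      simp only [hV, List.map_map, List.mem_map] at hi
      exact hi
    have hboth : (∃ l ∈ M, sh r l.1 = Sum.inl 0) ∧ ∃ l ∈ M, sh r l.1 = Sum.inr 0 := by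
      by_cases c1 : W1.length + 2 ≤ T (V1 ++ W1)
      · obtain ⟨⟨a, ha, ha'⟩, b, hb, hb'⟩ := T_two _ _ c1
        exact ⟨hmem _ (ha' ▸ h5 a ha), hmem _ (hb' ▸ h5 b hb)⟩
      by_cases c2 : W1.length + 2 ≤ T (S ++ W1)
      · obtain ⟨⟨a, ha, ha'⟩, b, hb, hb'⟩ := T_two _ _ c2
        exact ⟨hmem _ (ha' ▸ h6 a ha), hmem _ (hb' ▸ h6 b hb)⟩
      exact absurd (log_close (k := W1.length) (by omega) (by omega) (by omega) (by omega))
        (not_le.2 hx)
    simp only [Set.mem_iUnion]
    refine ⟨r, hboth, (rho x).toWord, ⟨?_, fun l hl => ⟨?_, trivial⟩⟩, rfl⟩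
    · rw [h1, List.length_append]; omega
    · rw [h1] at hl
      rcases List.mem_append.1 hl with hl | hl
      · obtain ⟨l', hl', e⟩ := hmem _ (h6 l hl)
        exact Or.inr ⟨l'.1, List.mem_map.2 ⟨l', hl', rfl⟩, e⟩
      · obtain ⟨i, hi, e⟩ := List.mem_iff_getElem.1 (List.mem_reverse.2 hl)
        have := T_lt (W := W1) (i := i) (by rw [hT]; simpa using hi)
        rw [List.getElem?_eq_getElem hi, e, Option.some.injEq] at this
        left
        rw [this, om]
        split_ifs <;> simp
  · intro x _ y _ hxy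
    simp only [Prod.mk.injEq, inv_inj, SemidirectProduct.mul_right, mul_right_inj,
      FreeGroup.toWord_inj, rho] at hxy
    obtain ⟨h1, h2⟩ := hxy
    rw [h1] at h2
    exact SemidirectProduct.ext ((phi _).injective h2) h1

theorem ff_bo : BO ff := by
  refine ⟨3, by norm_num, fun F => ?_⟩
  have hfin := F.finite_toSet.biUnion fun g _ => ff_fin g
  refine ⟨hfin.toFinset, fun x hx => ?_⟩
  have h1 : ∀ y ∈ EF F x, |ff y - ff x| ≤ 1 := by
    rintro y (rfl | ⟨g, hg, rfl⟩)
    · simp
    · by_contra hc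
      exact hx (hfin.mem_toFinset.2 (Set.mem_biUnion hg (not_le.1 hc)))
  refine lt_of_le_of_lt (Metric.diam_le_of_forall_dist_le (C := 2) (by norm_num) ?_) (by norm_num)
  rintro _ ⟨y, hy, rfl⟩ _ ⟨z, hz, rfl⟩
  have := h1 y hy
  have := h1 z hz
  rw [Real.dist_eq]
  rw [abs_le] at *
  constructor <;> linarith

open scoped Classical in
theorem ff_unb (k : ℕ) : ∃ x : G, Real.log (k + 1) ≤ ff x := by
  let L : List (I × Bool) := ((List.range k).map om).reverse
  have hL : FreeGroup.IsReduced L := by
    refine List.Pairwise.isChain (List.pairwise_of_forall_mem_list ?_)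
    intro a ha b hb _
    simp only [L, List.mem_reverse, List.mem_map] at ha hb
    obtain ⟨i, _, rfl⟩ := ha
    obtain ⟨j, _, rfl⟩ := hb
    rfl
  refine ⟨SemidirectProduct.inl (FreeGroup.mk L), ?_⟩
  have h1 : (rho (SemidirectProduct.inl (FreeGroup.mk L))).toWord = L := by
    simp [rho, hL.reduce_eq]
  have h2 : k ≤ T L := le_T fun i hi => by simp [L, hi]
  rw [ff, h1]
  refine Real.log_le_log (by positivity) ?_
  exact_mod_cast Nat.succ_le_succ h2

theorem result : ∃ (G : Type) (_ : Group G), SoBounded G ∧ ¬ BoBounded G := by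
  refine ⟨G, inferInstance, soBounded, fun h => ?_⟩
  obtain ⟨B, M, hM⟩ := h ff ff_bo
  obtain ⟨M', hM'⟩ := (B.finite_toSet.image ff).bddAbove
  obtain ⟨k, hk⟩ := exists_nat_gt (Real.exp (max M M'))
  obtain ⟨x, hx⟩ := ff_unb k
  have h1 : max M M' < Real.log (k + 1) := by
    rw [Real.lt_log_iff_exp_lt (by positivity)]; linarith
  have h2 : ff x ≤ max M M' := by
    rcases em (x ∈ B) with hB | hB
    · exact (hM' ⟨x, hB, rfl⟩).trans (le_max_right _ _)
    · exact ((le_abs_self _).trans (hM x hB)).trans (le_max_left _ _)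
  linarith

end Pool.Agent.Results.MP_769d7c_al.Counter
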